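import Pool.Agent.N783.PQ.Sha

/-!
# Rational representatives of invariant classes, prime to `f` (`S_RAT`)

Project PQ (helper783), part SH3, by helper776, after `Pool/Agent/Y723/HJ/Sgn.lean`, `Cls.lean`.
-/

set_option autoImplicit false
set_option linter.all false

open Polynomial Ideal
open scoped Classical

namespace Pool.Agent.N776.PQ

open Pool.Agent.N783.PQ
open Pool.Agent.Y723.HJ

/-- the moving lemma, prime to `f` -/
theorem moving' {K : Type} [Field K] [Infinite K] {f : K[X]} [HF f] {u v : K[X]} (hu : u.Monic)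
    (h : u ∣ f - v ^ 2) : ∃ u' v' : K[X], u'.Monic ∧ u' ∣ f - v' ^ 2 ∧
      cl (mi f u' v') = cl (mi f u v) ∧ IsCoprime u' f := by
  set E := AlgebraicClosure K with hE
  have hf0 : f ≠ 0 := (HF.toOddM (f := f)).monic.ne_zero
  obtain ⟨c, hc⟩ := Infinite.exists_notMem_finset
    (((f.aroots E).toFinset.image (fun α => -(aeval α v) / aeval α u)).preimage
      (algebraMap K E) ((algebraMap K E).injective.injOn))
  rw [Finset.mem_preimage] at hc
  have hv1 : ∀ α : E, aeval α f = 0 → aeval α u ≠ 0 → aeval α (v + u * C c) ≠ 0 := by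
    intro α hα hu0 h0
    apply hc
    rw [Finset.mem_image]
    refine ⟨α, ?_, ?_⟩
    · rw [Multiset.mem_toFinset, mem_aroots]
      exact ⟨hf0, hα⟩
    rw [map_add, map_mul, aeval_C] at h0
    rw [div_eq_iff hu0]
    linear_combination -h0
  obtain ⟨w, hw⟩ := h
  obtain ⟨v1, hv⟩ : ∃ v1, v1 = v + u * C c := ⟨_, rfl⟩
  obtain ⟨u1, hu1⟩ : u ∣ f - v1 ^ 2 := by
    refine ⟨w - 2 * v * C c - u * C c ^ 2, ?_⟩
    rw [hv]
    linear_combination hw
  have h0 : u * u1 ≠ 0 := by rw [← hu1]; exact fsub_ne v1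
  have hu10 : u1 ≠ 0 := right_ne_zero_of_mul h0
  have hlc : (u1.leadingCoeff)⁻¹ ≠ 0 := inv_ne_zero (leadingCoeff_ne_zero.2 hu10)
  refine ⟨C (u1.leadingCoeff)⁻¹ * u1, -v1, ?_, ?_, ?_, ?_⟩
  · rw [Monic, leadingCoeff_mul, leadingCoeff_C,
      inv_mul_cancel₀ (leadingCoeff_ne_zero.2 hu10)]
  · rw [neg_sq, hu1]
    refine ⟨C u1.leadingCoeff * u, ?_⟩
    have : C (u1.leadingCoeff)⁻¹ * C u1.leadingCoeff = (1 : K[X]) := by
      rw [← C_mul, inv_mul_cancel₀ (leadingCoeff_ne_zero.2 hu10), C_1]
    linear_combination -u * u1 * this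
  · rw [mi_unit hlc, cl_compl hu1.symm, hv, mi_shift]
  · refine (Polynomial.isCoprime_iff_aeval_ne_zero_of_isAlgClosed K E _ _).2 ?_
    intro α
    by_cases hα : aeval α f = 0
    · left
      intro h1
      have hlc' : algebraMap K E (u1.leadingCoeff)⁻¹ ≠ 0 := by
        rwa [Ne, map_eq_zero]
      rw [map_mul, aeval_C, mul_eq_zero, or_iff_right hlc'] at h1
      have h2 : aeval α u * aeval α u1 = -(aeval α v1) ^ 2 := by
        rw [← map_mul, ← hu1, map_sub, hα, map_pow]; ring
      have h3 : aeval α v1 = 0 := by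
        rw [h1, mul_zero] at h2
        have : (aeval α v1) ^ 2 = 0 := by linear_combination h2
        exact pow_eq_zero_iff (two_ne_zero) |>.1 this
      by_cases h4 : aeval α u = 0
      · obtain ⟨a, b, c', habc⟩ := cop (f := f) hu1.symm
        have h5 := congrArg (aeval α) habc
        rw [map_add, map_add, map_mul, map_mul, map_mul, h4, h3, h1, map_one] at h5
        simp at h5
      · exact hv1 α hα h4 (by rw [← hv]; exact h3)
    · exact Or.inr hα

/-- **RAT.** -/
theorem rat : S_RAT := by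
  intro K _ _ f f' _ hf' hf hτ P hP
  haveI : IsGalois K (AlgebraicClosure K) := inferInstance
  obtain ⟨g, hdeg⟩ := (HF.toOddM (f := f')).odd
  obtain ⟨u, v, hu, huv, hug, hvu, hc⟩ := exists_reduced hdeg P
  have hfix : ∀ τ : AlgebraicClosure K ≃ₐ[K] AlgebraicClosure K,
      u.map (τ : AlgebraicClosure K →+* AlgebraicClosure K) = u ∧
      v.map (τ : AlgebraicClosure K →+* AlgebraicClosure K) = v := by
    intro τ
    obtain ⟨φ, hφ⟩ : ∃ φ : AlgebraicClosure K →+* AlgebraicClosure K, φ = τ := ⟨_, rfl⟩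
    have hφf : f'.map φ = f' := by rw [hφ]; exact hτ τ
    have h1 : clmap φ hφf P = P := by
      subst hφ
      exact hP τ
    rw [← hφ]
    rw [← hc, clmap_mi _ _ hu.ne_zero] at h1
    have huv' : u.map φ ∣ f' - (v.map φ) ^ 2 := by
      have := Polynomial.map_dvd φ huv
      rwa [Polynomial.map_sub, Polynomial.map_pow, hφf] at this
    obtain ⟨e1, e2⟩ := reduced_unique hdeg (hu.map φ) hu huv' huv
      (by rw [natDegree_map]; exact hug) hug h1
    refine ⟨e1, ?_⟩
    have h4 : (⟨-(v.map φ), 1⟩ : CR f') ∈ mi f' u v := by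
      rw [← e2]; exact mi_y_mem _ _
    rw [mem_mi huv] at h4
    have h5 : u ∣ v - v.map φ := by
      convert h4 using 1
      simp only
      ring
    have h6 : (v - v.map φ).degree < u.degree := by
      have h7 : v.degree < u.degree := by
        rw [← hvu]; exact degree_modByMonic_lt v hu
      refine (degree_sub_le _ _).trans_lt ?_
      rw [degree_map, max_self]
      exact h7
    have h7 := eq_zero_of_dvd_of_degree_lt h5 h6
    exact (sub_eq_zero.1 h7).symm
  have hlift : ∀ p : (AlgebraicClosure K)[X],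
      (∀ τ : AlgebraicClosure K ≃ₐ[K] AlgebraicClosure K,
        p.map (τ : AlgebraicClosure K →+* AlgebraicClosure K) = p) →
      ∃ q : K[X], q.map (algebraMap K (AlgebraicClosure K)) = p := by
    intro p hp
    have h1 : p ∈ Polynomial.lifts (algebraMap K (AlgebraicClosure K)) := by
      rw [lifts_iff_coeff_lifts]
      intro n
      rw [InfiniteGalois.mem_range_algebraMap_iff_fixed]
      intro τ
      have := congrArg (fun q => q.coeff n) (hp τ)
      simp only [coeff_map] at this
      exact this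
    exact (mem_lifts p).1 h1
  obtain ⟨u0, rfl⟩ := hlift u fun τ => (hfix τ).1
  obtain ⟨v0, rfl⟩ := hlift v fun τ => (hfix τ).2
  have hu0 : u0.Monic := by
    rwa [Polynomial.monic_map_iff] at hu
  have huv0 : u0 ∣ f - v0 ^ 2 := by
    rw [← Polynomial.map_dvd_map' (algebraMap K (AlgebraicClosure K)), Polynomial.map_sub,
      Polynomial.map_pow, hf]
    exact huv
  haveI : Infinite K := inferInstance
  obtain ⟨u', v', h1, h2, h3, h4⟩ := moving' hu0 huv0
  refine ⟨u', v', h1, h4, h2, ?_⟩
  rw [← hc]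
  have h5 := congrArg (clmap (algebraMap K (AlgebraicClosure K)) hf) h3
  rwa [clmap_mi _ _ h1.ne_zero, clmap_mi _ _ hu0.ne_zero] at h5

end Pool.Agent.N776.PQ
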