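import Pool.Agent.N783.PQ.Lat
import Pool.Agent.N169.PP.SD

/-!
# The ideal `I` with `I ^ 2 = α O` is unimodular (`S_SD`)

Project PQ (helper783), by helper776, after `Pool/Agent/N588/PJ/SD.lean` (helper588) and
`Pool/Agent/N262/PJ/Uni.lean` (helper262).
-/

set_option autoImplicit false
set_option linter.all false

open Polynomial IsDedekindDomain Matrix NumberField nonZeroDivisors
open scoped Classical

namespace Pool.Agent.N776.PQ

open Pool.Agent.N783.PQ
open Pool.Agent.N352.PJ (Mt)
open Pool.Agent.N169.PP (exists_sqrt)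

/-- The integers in `ℚ`. -/
abbrev ZZ : Subring ℚ := (Int.castRingHom ℚ).range

section gen

variable {L : Type} [Field L] [NumberField L] {g : ℕ} {f : ℤ[X]} {θ : L}

theorem top_pow (h : IsGen g f θ) (m : ℕ) (hm : m ≤ 2 * g) :
    h.top (θ ^ m) = if m = 2 * g then 1 else 0 := by
  have e1 : θ ^ m = h.basis ⟨m, by omega⟩ := by rw [h.basis_apply]
  rw [e1]
  unfold IsGen.top
  rw [Module.Basis.coord_apply, Module.Basis.repr_self, Finsupp.single_apply]
  congr 1
  rw [Fin.ext_iff, Fin.val_last]

theorem theta_int (h : IsGen g f θ) : IsIntegral ℤ θ := ⟨f, h.mon, h.root⟩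

theorem sum_eq (h : IsGen g f θ) (z : L) :
    z = ∑ i : Fin (2 * g + 1), h.basis.repr z i • θ ^ (i : ℕ) := by
  conv_lhs => rw [← h.basis.sum_repr z]
  refine Finset.sum_congr rfl fun i _ => ?_
  rw [h.basis_apply]

theorem int_smul (n : ℤ) (x : L) : (n : L) * x = ((n : ℤ) : ℚ) • x := by
  rw [Algebra.smul_def, map_intCast]

theorem top_int (h : IsGen g f θ)
    (hint : ∀ x : L, IsIntegral ℤ x ↔ ∃ v : Fin (2 * g + 1) → ℤ, Crd g θ v x) {x : L}
    (hx : IsIntegral ℤ x) : h.top x ∈ ZZ := by
  obtain ⟨v, hv⟩ := (hint x).mp hx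
  unfold Crd at hv
  rw [hv, map_sum]
  refine sum_mem fun i _ => ?_
  rw [int_smul, map_smul, smul_eq_mul, top_pow h i (by omega)]
  refine mul_mem ⟨v i, rfl⟩ ?_
  split_ifs
  · exact one_mem _
  · exact zero_mem _

/-- an element with integral moments is integral -/
theorem int_of_top (h : IsGen g f θ)
    (hint : ∀ x : L, IsIntegral ℤ x ↔ ∃ v : Fin (2 * g + 1) → ℤ, Crd g θ v x) {z : L}
    (hz : ∀ m ≤ 2 * g, h.top (z * θ ^ m) ∈ ZZ) : IsIntegral ℤ z := by
  have key : ∀ m : ℕ, ∀ i : Fin (2 * g + 1), (i : ℕ) + m = 2 * g →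
      h.basis.repr z i ∈ ZZ := by
    intro m
    induction m using Nat.strong_induction_on with
    | _ m ih =>
      intro i him
      have h1 : z * θ ^ m = ∑ l : Fin (2 * g + 1), h.basis.repr z l • θ ^ ((l : ℕ) + m) := by
        conv_lhs => rw [sum_eq h z, Finset.sum_mul]
        refine Finset.sum_congr rfl fun l _ => ?_
        rw [pow_add, Algebra.smul_def, Algebra.smul_def]
        ring
      have h2 := hz m (by omega)
      rw [h1, map_sum, ← Finset.add_sum_erase _ _ (Finset.mem_univ i), map_smul, smul_eq_mul,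
        top_pow h _ (by omega), if_pos him, mul_one] at h2
      have h3 : ∑ l ∈ Finset.univ.erase i, h.top (h.basis.repr z l • θ ^ ((l : ℕ) + m)) ∈ ZZ := by
        refine sum_mem fun l hl => ?_
        have hli : l ≠ i := (Finset.mem_erase.mp hl).1
        have hli' : (l : ℕ) ≠ i := fun hh => hli (Fin.ext hh)
        rw [map_smul, smul_eq_mul]
        rcases lt_or_gt_of_ne hli' with hlt | hgt
        · rw [top_pow h _ (by omega), if_neg (by omega), mul_zero]
          exact zero_mem _
        · refine mul_mem (ih (2 * g - l) (by omega) l (by omega)) ?_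
          exact top_int h hint ((theta_int h).pow _)
      have h4 := sub_mem h2 h3
      rwa [add_sub_cancel_right] at h4
  rw [sum_eq h z]
  refine IsIntegral.sum _ fun i _ => ?_
  obtain ⟨p, hp⟩ := key (2 * g - i) i (by omega)
  rw [← hp]
  have e : (Int.castRingHom ℚ) p • θ ^ (i : ℕ) = (p : L) * θ ^ (i : ℕ) := (int_smul p _).symm
  rw [e]
  exact (isIntegral_algebraMap (R := ℤ) (x := p)).mul ((theta_int h).pow _)

/-- the form is nondegenerate -/
theorem top_ne (h : IsGen g f θ) {x : L} (hx : ∀ y : L, h.top (x * y) = 0) : x = 0 := by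
  by_contra h0
  have := hx (x⁻¹ * θ ^ (2 * g))
  rw [← mul_assoc, mul_inv_cancel₀ h0, one_mul, top_pow h _ le_rfl, if_pos rfl] at this
  exact one_ne_zero this

/-- the Gram matrix of a self-dual ideal is unimodular -/
theorem lat_of_sd (h : IsGen g f θ)
    (hint : ∀ x : L, IsIntegral ℤ x ↔ ∃ v : Fin (2 * g + 1) → ℤ, Crd g θ v x)
    {α : L} {e : Fin (2 * g + 1) → L} (hα : α ≠ 0) (hli : LinearIndependent ℚ e)
    (hS : SDn g e α) : ∃ A B : Mt g ℤ, Lat h α e A B := by
  have hG : ∀ i j, ∃ p : ℤ, (p : ℚ) = h.top (e i * e j / α) :=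
    fun i j => top_int h hint (hS.int i j)
  choose G hG using hG
  have hB : ∀ i j, ∃ p : ℤ, (p : ℚ) = h.top (θ * (e i * e j) / α) := fun i j => by
    have e1 : θ * (e i * e j) / α = θ * (e i * e j / α) := by ring
    rw [e1]
    exact top_int h hint ((theta_int h).mul (hS.int i j))
  choose B hB using hB
  -- elements of the dual lattice
  have hdual : ∀ y : L, (∀ j, h.top (y * e j / α) ∈ ZZ) →
      ∃ c : Fin (2 * g + 1) → ℤ, y = ∑ i, (c i : L) * e i := by
    intro y hy
    apply hS.dual
    intro j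
    have h1 : e j * y / α = y * e j / α := by ring
    rw [h1]
    apply int_of_top h hint
    intro m _
    obtain ⟨c, hc⟩ := hS.dual (e j * θ ^ m) (fun i => by
      have : e i * (e j * θ ^ m) / α = (e i * e j / α) * θ ^ m := by ring
      rw [this]
      exact (hS.int i j).mul ((theta_int h).pow m))
    have h2 : y * e j / α * θ ^ m = ∑ l, ((c l : ℤ) : ℚ) • (y * e l / α) := by
      have h3 : y * e j / α * θ ^ m = y * (e j * θ ^ m) / α := by ring
      rw [h3, hc, Finset.mul_sum, Finset.sum_div]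
      refine Finset.sum_congr rfl fun l _ => ?_
      rw [← int_smul]
      ring
    rw [h2, map_sum]
    refine sum_mem fun l _ => ?_
    rw [map_smul, smul_eq_mul]
    exact mul_mem ⟨c l, rfl⟩ (hy l)
  -- the Gram matrix over `ℚ`
  set GK : Mt g ℚ := Matrix.of fun i j => h.top (e i * e j / α) with hGK
  let b : Module.Basis (Fin (2 * g + 1)) ℚ L :=
    basisOfLinearIndependentOfCardEqFinrank hli (by rw [h.rank, Fintype.card_fin])
  have hb : ∀ i, b i = e i := fun i => by
    simp [b, coe_basisOfLinearIndependentOfCardEqFinrank]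
  have hGKdet : GK.det ≠ 0 := by
    intro h0
    obtain ⟨v, hv0, hv⟩ := (Matrix.exists_mulVec_eq_zero_iff).2 h0
    apply hv0
    set x : L := ∑ l, v l • e l with hx
    have h1 : ∀ j, h.top (e j * x / α) = 0 := by
      intro j
      have h2 : e j * x / α = ∑ l, v l • (e j * e l / α) := by
        rw [hx, Finset.mul_sum, Finset.sum_div]
        refine Finset.sum_congr rfl fun l _ => ?_
        rw [Algebra.smul_def, Algebra.smul_def]
        ring
      have h3 := congrFun hv j
      rw [h2, map_sum]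
      rw [Matrix.mulVec, dotProduct, Pi.zero_apply] at h3
      rw [← h3]
      refine Finset.sum_congr rfl fun l _ => ?_
      rw [map_smul, smul_eq_mul, hGK, Matrix.of_apply, mul_comm]
    have h4 : x / α = 0 := by
      apply top_ne h
      intro y
      have h5 : x / α * y = ∑ j, b.repr y j • (e j * x / α) := by
        conv_lhs => rw [← b.sum_repr y]
        rw [Finset.mul_sum]
        refine Finset.sum_congr rfl fun j _ => ?_
        rw [hb, Algebra.smul_def, Algebra.smul_def]
        ring
      rw [h5, map_sum]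
      refine Finset.sum_eq_zero fun j _ => ?_
      rw [map_smul, h1, smul_zero]
    have h6 : x = 0 := (div_eq_zero_iff.1 h4).resolve_right hα
    funext l
    exact Fintype.linearIndependent_iff.mp hli v h6 l
  have hunit : IsUnit GK.det := isUnit_iff_ne_zero.mpr hGKdet
  -- the dual basis
  have hinv : ∀ i, ∃ c : Fin (2 * g + 1) → ℤ, ∀ l, GK⁻¹ i l = (c l : ℚ) := by
    intro i
    set y : L := ∑ l, GK⁻¹ i l • e l with hy
    obtain ⟨c, hc⟩ := hdual y (fun j => by
      have h1 : y * e j / α = ∑ l, GK⁻¹ i l • (e l * e j / α) := by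
        rw [hy, Finset.sum_mul, Finset.sum_div]
        refine Finset.sum_congr rfl fun l _ => ?_
        rw [Algebra.smul_def, Algebra.smul_def]
        ring
      have h2 : h.top (y * e j / α) = (GK⁻¹ * GK) i j := by
        rw [h1, map_sum, Matrix.mul_apply]
        refine Finset.sum_congr rfl fun l _ => ?_
        rw [map_smul, smul_eq_mul, hGK, Matrix.of_apply]
      rw [h2, Matrix.nonsing_inv_mul _ hunit, Matrix.one_apply]
      split_ifs
      · exact one_mem _
      · exact zero_mem _)
    refine ⟨c, fun l => ?_⟩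
    have h3 : ∑ l, (GK⁻¹ i l - (c l : ℚ)) • e l = 0 := by
      rw [← sub_eq_zero.mpr hc, hy, ← Finset.sum_sub_distrib]
      refine Finset.sum_congr rfl fun l _ => ?_
      rw [sub_smul, int_smul]
    have h4 := Fintype.linearIndependent_iff.mp hli _ h3 l
    exact sub_eq_zero.mp h4
  choose C hC using hinv
  refine ⟨Matrix.of G, Matrix.of B, ?_, fun i j => by rw [Matrix.of_apply, hG],
    fun i j => by rw [Matrix.of_apply, hB]⟩
  have hmul : (Matrix.of G : Mt g ℤ) * (Matrix.of C : Mt g ℤ) = 1 := by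
    have hinj : Function.Injective fun M : Mt g ℤ => M.map (Int.castRingHom ℚ) := by
      intro M M' hM
      refine Matrix.ext fun i j => ?_
      have h0 : (Int.castRingHom ℚ) (M i j) = (Int.castRingHom ℚ) (M' i j) :=
        congrFun (congrFun hM i) j
      exact Int.cast_injective h0
    apply hinj
    simp only
    rw [Matrix.map_mul]
    have h1 : (Matrix.of G : Mt g ℤ).map (Int.castRingHom ℚ) = GK := by
      ext i j
      rw [Matrix.map_apply, Matrix.of_apply, hGK, Matrix.of_apply]
      exact hG i j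
    have h2 : (Matrix.of C : Mt g ℤ).map (Int.castRingHom ℚ) = GK⁻¹ := by
      ext i j
      rw [Matrix.map_apply, Matrix.of_apply, hC]
      rfl
    rw [h1, h2, Matrix.mul_nonsing_inv _ hunit]
    ext i j
    rw [Matrix.map_apply, Matrix.one_apply, Matrix.one_apply]
    split_ifs
    · rw [map_one]
    · rw [map_zero]
  have hd := congrArg Matrix.det hmul
  rw [Matrix.det_mul, Matrix.det_one] at hd
  exact Int.isUnit_iff.1 (IsUnit.of_mul_eq_one _ hd)

/-- A basis of a fractional ideal. -/
theorem basis_I (h : IsGen g f θ) (I : FractionalIdeal (𝓞 L)⁰ L) (h0 : I ≠ 0) :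
    ∃ e : Fin (2 * g + 1) → L, LinearIndependent ℚ e ∧ (∀ i, e i ∈ I) ∧
      ∀ y ∈ I, ∃ c : Fin (2 * g + 1) → ℤ, y = ∑ i, (c i : L) * e i := by
  obtain ⟨J, rfl⟩ : ∃ J : (FractionalIdeal (𝓞 L)⁰ L)ˣ, (J : FractionalIdeal (𝓞 L)⁰ L) = I :=
    ⟨Units.mk0 I h0, rfl⟩
  let b := basisOfFractionalIdeal L J
  have hcard : Fintype.card (Module.Free.ChooseBasisIndex ℤ (J : FractionalIdeal (𝓞 L)⁰ L)) =
      2 * g + 1 := by
    rw [← Module.finrank_eq_card_basis b, h.rank]
  let E : Fin (2 * g + 1) ≃ Module.Free.ChooseBasisIndex ℤ (J : FractionalIdeal (𝓞 L)⁰ L) :=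
    (Fintype.equivFinOfCardEq hcard).symm
  refine ⟨fun i => b (E i), b.linearIndependent.comp E E.injective, fun i => ?_, fun y hy => ?_⟩
  · exact (mem_span_basisOfFractionalIdeal L).1 (Submodule.subset_span ⟨E i, rfl⟩)
  · have hy' : y ∈ Submodule.span ℤ (Set.range b) := (mem_span_basisOfFractionalIdeal L).2 hy
    obtain ⟨c, hc⟩ := (Submodule.mem_span_range_iff_exists_fun ℤ).1 hy'
    refine ⟨fun i => c (E i), ?_⟩
    rw [← hc, ← E.sum_comp]
    refine Finset.sum_congr rfl fun i _ => ?_
    rw [zsmul_eq_mul]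

end gen

/-- **SD.** -/
theorem sd (hI : S_INT) : S_SD := by
  intro g L _ _ f θ hc hs α hα hev
  obtain ⟨I, h0, hII⟩ := exists_sqrt α hα hev
  obtain ⟨e, hli, hmem, hbas⟩ := basis_I hc I h0
  have hSD : SDn g e α := by
    constructor
    · intro i j
      have h1 : e i * e j ∈ FractionalIdeal.spanSingleton (𝓞 L)⁰ α := by
        rw [← hII]
        exact FractionalIdeal.mul_mem_mul (hmem i) (hmem j)
      obtain ⟨z, hz⟩ := (FractionalIdeal.mem_spanSingleton _).1 h1
      rw [← hz, Algebra.smul_def, mul_div_cancel_right₀ _ hα]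
      exact (IsIntegralClosure.isIntegral_iff (A := 𝓞 L)).2 ⟨z, rfl⟩
    · intro y hy
      apply hbas
      have h1 : FractionalIdeal.spanSingleton (𝓞 L)⁰ y * I ≤ I * I := by
        rw [FractionalIdeal.mul_le]
        intro u hu w hw
        rw [hII]
        obtain ⟨z, hz⟩ := (FractionalIdeal.mem_spanSingleton _).1 hu
        obtain ⟨c, hc'⟩ := hbas w hw
        have h2 : IsIntegral ℤ (w * y / α) := by
          rw [hc', Finset.sum_mul, Finset.sum_div]
          refine IsIntegral.sum _ fun i _ => ?_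
          have : (c i : L) * e i * y / α = (c i : L) * (e i * y / α) := by ring
          rw [this]
          exact (isIntegral_algebraMap (R := ℤ) (x := c i)).mul (hy i)
        obtain ⟨z', hz'⟩ := (IsIntegralClosure.isIntegral_iff (A := 𝓞 L)).1 h2
        refine (FractionalIdeal.mem_spanSingleton _).2 ⟨z * z', ?_⟩
        rw [← hz, Algebra.smul_def, Algebra.smul_def, map_mul, hz']
        field_simp
      have h3 : FractionalIdeal.spanSingleton (𝓞 L)⁰ y ≤ I := by
        have := mul_le_mul_left h1 I⁻¹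
        rwa [mul_assoc, mul_inv_cancel₀ h0, mul_assoc, mul_inv_cancel₀ h0, mul_one, mul_one] at this
      exact FractionalIdeal.spanSingleton_le_iff_mem.1 h3
  obtain ⟨A, B, hL⟩ := lat_of_sd hc (hI g L f θ hc hs) hα hli hSD
  exact ⟨e, A, B, hSD, hL⟩

end Pool.Agent.N776.PQ
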