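import Pool.Agent.N776.PQ.Sd

/-!
# Local squares give a distinguished vector modulo `q` (`S_TV`)

Project PQ (helper783), by helper776, after `Pool/Agent/N765/PJ/{Base,Exq,TV}.lean` (helper765).
-/

set_option autoImplicit false
set_option linter.all false

open Polynomial IsDedekindDomain Matrix NumberField WithZero
open scoped Classical

namespace Pool.Agent.N776.PQ

open Pool.Agent.N783.PQ
open Pool.Agent.N352.PJ (Mt)
open Pool.Agent.N874.PP (Ev Sq1 U0)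

/-! ### Reduction modulo `q` -/

theorem map_eq_of_cg {q : ℕ} {f f' : ℤ[X]} (h : Cg q f f') : rd q f = rd q f' := by
  ext j
  rw [coeff_map, coeff_map]
  show ((f.coeff j : ℤ) : ZMod q) = ((f'.coeff j : ℤ) : ZMod q)
  rw [← sub_eq_zero, ← Int.cast_sub, ZMod.intCast_zmod_eq_zero_iff_dvd]
  exact h j

theorem map_rd_eq_zero {q : ℕ} {p : ℤ[X]} (h : rd q p = 0) : ∃ p' : ℤ[X], p = C (q : ℤ) * p' := by
  have : C (q : ℤ) ∣ p := by
    rw [C_dvd_iff_dvd_coeff]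
    intro i
    have h1 := congrArg (fun p => coeff p i) h
    simp only [coeff_map, coeff_zero] at h1
    exact (ZMod.intCast_zmod_eq_zero_iff_dvd _ _).1 h1
  exact this

theorem rd_surj (q : ℕ) : Function.Surjective (rd q) :=
  Polynomial.map_surjective _ (ZMod.ringHom_surjective _)

section main

variable {L : Type} [Field L] [NumberField L] {g : ℕ} {f : ℤ[X]} {θ : L}

/-- evaluation at `t` -/
noncomputable def ev (t : 𝓞 L) : ℤ[X] →+* 𝓞 L := eval₂RingHom (Int.castRingHom (𝓞 L)) t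

theorem ev_L {t : 𝓞 L} (ht : algebraMap (𝓞 L) L t = θ) (p : ℤ[X]) :
    algebraMap (𝓞 L) L (ev t p) = aeval θ p := by
  unfold ev
  rw [coe_eval₂RingHom, hom_eval₂, ht, aeval_def]
  congr 1

theorem ev_f (h : IsGen g f θ) {t : 𝓞 L} (ht : algebraMap (𝓞 L) L t = θ) : ev t f = 0 := by
  apply IsFractionRing.injective (𝓞 L) L
  rw [ev_L ht, h.root, map_zero]

theorem ev_X (t : 𝓞 L) : ev t X = t := by simp [ev]

theorem ev_C (t : 𝓞 L) (c : ℤ) : ev t (C c) = (c : 𝓞 L) := by simp [ev]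

/-- a polynomial of small degree with value zero -/
theorem small_zero (h : IsGen g f θ) {r : ℤ[X]} (hr : r.degree < ((2 * g + 1 : ℕ) : WithBot ℕ))
    (h0 : aeval θ r = 0) : r = 0 := by
  have hli := Fintype.linearIndependent_iff.1 h.basis.linearIndependent
  have h1 : ∑ i : Fin (2 * g + 1), ((r.coeff i : ℤ) : ℚ) • h.basis i = 0 := by
    rw [← h0, aeval_def, eval₂_eq_sum_range' (algebraMap ℤ L) (n := 2 * g + 1),
      ← Fin.sum_univ_eq_sum_range (fun i => algebraMap ℤ L (r.coeff i) * θ ^ i)]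
    · refine Finset.sum_congr rfl fun i _ => ?_
      rw [h.basis_apply, ← int_smul]
      rfl
    · by_cases hr0 : r = 0
      · rw [hr0]; simp
      · exact (natDegree_lt_iff_degree_lt hr0).2 hr
  have h2 := hli _ h1
  ext1 i
  rw [coeff_zero]
  by_cases hi : i < 2 * g + 1
  · have h3 := h2 ⟨i, hi⟩
    exact_mod_cast h3
  · exact coeff_eq_zero_of_degree_lt (hr.trans_le (by exact_mod_cast (not_lt.1 hi)))

theorem deg_f (h : IsGen g f θ) : f.degree = ((2 * g + 1 : ℕ) : WithBot ℕ) := by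
  rw [degree_eq_natDegree h.mon.ne_zero, h.deg]

theorem ev_ker (h : IsGen g f θ) {t : 𝓞 L} (ht : algebraMap (𝓞 L) L t = θ) {p : ℤ[X]}
    (hp : ev t p = 0) : f ∣ p := by
  rw [← modByMonic_eq_zero_iff_dvd h.mon]
  refine small_zero h ?_ ?_
  · rw [← deg_f h]
    exact degree_modByMonic_lt _ h.mon
  · rw [← ev_L ht]
    have h1 := modByMonic_add_div p f
    have h2 := congrArg (ev t) h1
    rw [map_add, map_mul, ev_f h ht, zero_mul, add_zero, hp] at h2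
    rw [h2, map_zero]

/-- the polynomial with given coordinates -/
theorem crd_poly {t : 𝓞 L} (ht : algebraMap (𝓞 L) L t = θ) {v : Fin (2 * g + 1) → ℤ} {z : 𝓞 L}
    (hz : Crd g θ v (algebraMap (𝓞 L) L z)) : ∃ p : ℤ[X],
      p.degree < ((2 * g + 1 : ℕ) : WithBot ℕ) ∧ ev t p = z := by
  refine ⟨∑ i : Fin (2 * g + 1), C (v i) * X ^ (i : ℕ), degree_sum_fin_lt _, ?_⟩
  apply IsFractionRing.injective (𝓞 L) L
  rw [ev_L ht, hz, map_sum]
  refine Finset.sum_congr rfl fun i _ => ?_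
  rw [map_mul, map_pow, aeval_X, aeval_C]
  rfl

theorem int_iff (x : L) : IsIntegral ℤ x ↔ ∃ z : 𝓞 L, algebraMap (𝓞 L) L z = x :=
  IsIntegralClosure.isIntegral_iff (A := 𝓞 L)

theorem theta_ex (h : IsGen g f θ) : ∃ t : 𝓞 L, algebraMap (𝓞 L) L t = θ :=
  (int_iff θ).1 ⟨f, h.mon, h.root⟩

/-- integers as values of polynomials -/
theorem ex_poly (hI : S_INT) (h : IsGen g f θ) (hsq : Squarefree (dsc g f)) {t : 𝓞 L}
    (ht : algebraMap (𝓞 L) L t = θ) (z : 𝓞 L) : ∃ p : ℤ[X],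
      p.degree < ((2 * g + 1 : ℕ) : WithBot ℕ) ∧ ev t p = z := by
  obtain ⟨v, hv⟩ := (hI g L f θ h hsq _).1 ((int_iff _).2 ⟨z, rfl⟩)
  exact crd_poly ht hv

theorem ev_surj (hI : S_INT) (h : IsGen g f θ) (hsq : Squarefree (dsc g f)) {t : 𝓞 L}
    (ht : algebraMap (𝓞 L) L t = θ) : Function.Surjective (ev t) := fun z => by
  obtain ⟨p, -, hp⟩ := ex_poly hI h hsq ht z
  exact ⟨p, hp⟩

/-- the map to `AdjoinRoot m` for a factor `m` of `f` modulo `q` -/
theorem ex_psi (hI : S_INT) (h : IsGen g f θ) (hsq : Squarefree (dsc g f)) {t : 𝓞 L}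
    (ht : algebraMap (𝓞 L) L t = θ) (q : ℕ) (m : (ZMod q)[X])
    (hm : m ∣ rd q f) : ∃ ψ : 𝓞 L →+* AdjoinRoot m,
      ∀ p : ℤ[X], ψ (ev t p) = AdjoinRoot.mk m (rd q p) := by
  have hk : RingHom.ker (ev t) ≤
      RingHom.ker ((AdjoinRoot.mk m).comp (mapRingHom (Int.castRingHom (ZMod q)))) := by
    intro p hp
    rw [RingHom.mem_ker] at hp ⊢
    obtain ⟨c, rfl⟩ := ev_ker h ht hp
    simp only [RingHom.comp_apply, coe_mapRingHom, Polynomial.map_mul, map_mul]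
    rw [AdjoinRoot.mk_eq_zero.2 hm, zero_mul]
  refine ⟨(ev t).liftOfSurjective (ev_surj hI h hsq ht) ⟨_, hk⟩, fun p => ?_⟩
  rw [RingHom.liftOfRightInverse_comp_apply]
  rfl

/-- the prime of a factor of `f` modulo `q` -/
theorem ex_prime (hI : S_INT) (h : IsGen g f θ) (hsq : Squarefree (dsc g f)) {t : 𝓞 L}
    (ht : algebraMap (𝓞 L) L t = θ) (q : ℕ) [hq : Fact q.Prime] (m : (ZMod q)[X])
    (hmi : Irreducible m) (hm : m ∣ rd q f) : ∃ 𝔓 : HeightOneSpectrum (𝓞 L), Ov q 𝔓 ∧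
      ∀ p : ℤ[X], ev t p ∈ 𝔓.asIdeal ↔ m ∣ rd q p := by
  obtain ⟨ψ, hψ⟩ := ex_psi hI h hsq ht q m hm
  haveI i2 : Fact (Irreducible m) := ⟨hmi⟩
  have hq0 : ((q : ℕ) : 𝓞 L) ∈ RingHom.ker ψ := by
    have e1 : ((q : ℕ) : 𝓞 L) = ev t (C (q : ℤ)) := by rw [ev_C]; push_cast; rfl
    rw [RingHom.mem_ker, e1, hψ]
    have e2 : rd q (C (q : ℤ)) = 0 := by
      rw [rd, Polynomial.map_C]
      simp
    rw [e2, map_zero]
  refine ⟨⟨RingHom.ker ψ, RingHom.ker_isPrime ψ, fun h0 => ?_⟩, hq0, fun p => ?_⟩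
  · rw [h0, Ideal.mem_bot] at hq0
    exact hq.out.ne_zero (by exact_mod_cast hq0)
  · show ev t p ∈ RingHom.ker ψ ↔ _
    rw [RingHom.mem_ker, hψ, AdjoinRoot.mk_eq_zero]

/-! ### The lattice -/

/-- the lattice -/
def InI (g : ℕ) {L : Type} [Field L] (e : Fin (2 * g + 1) → L) (α y : L) : Prop :=
  ∀ i, IsIntegral ℤ (e i * y / α)

theorem InI.add {e : Fin (2 * g + 1) → L} {α x y : L} (hx : InI g e α x) (hy : InI g e α y) :
    InI g e α (x + y) := fun i => by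
  have := (hx i).add (hy i)
  rwa [← add_div, ← mul_add] at this

theorem InI.mul {e : Fin (2 * g + 1) → L} {α x c : L} (hc : IsIntegral ℤ c)
    (hx : InI g e α x) : InI g e α (c * x) := fun i => by
  have := hc.mul (hx i)
  have e1 : c * (e i * x / α) = e i * (c * x) / α := by ring
  rwa [e1] at this

theorem InI.prod {e : Fin (2 * g + 1) → L} {α x y : L} (hSD : SDn g e α)
    (hx : InI g e α x) (hy : InI g e α y) : IsIntegral ℤ (x * y / α) := by
  obtain ⟨c, hc⟩ := hSD.dual x hx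
  have e1 : x * y / α = ∑ j, (c j : L) * (e j * y / α) := by
    rw [hc, Finset.sum_mul, Finset.sum_div]
    exact Finset.sum_congr rfl fun j _ => by ring
  rw [e1]
  exact IsIntegral.sum _ fun j _ => (isIntegral_algebraMap (R := ℤ) (x := c j)).mul (hy j)

/-- an element of the lattice which is good at `𝔓` -/
theorem stepA {e : Fin (2 * g + 1) → L} {α : L} (hα : α ≠ 0) (hSD : SDn g e α)
    {𝔓 : HeightOneSpectrum (𝓞 L)} (hs : Sq1 𝔓 α) :
    ∃ (y : L) (t u : 𝓞 L), InI g e α y ∧ t ∉ 𝔓.asIdeal ∧ algebraMap (𝓞 L) L u = y * y / α ∧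
      u - t ^ 2 ∈ 𝔓.asIdeal := by
  obtain ⟨s, hs⟩ := hs
  have hvα : 𝔓.valuation L α ≠ 0 := (Valuation.ne_zero_iff _).2 hα
  have hvs : 𝔓.valuation L (s ^ 2) = 𝔓.valuation L α := by
    have h1 : s ^ 2 = α - (α - s ^ 2) := by ring
    rw [h1]
    exact Valuation.map_sub_eq_of_lt_left _ hs
  have hvs' : 𝔓.valuation L (s ^ 2 / α) = 1 := by
    rw [map_div₀, hvs, div_self hvα]
  have hint : ∀ i, 𝔓.valuation L (e i * s / α) ≤ 1 := by
    intro i
    have h1 : 𝔓.valuation L (e i * e i / α) ≤ 1 := by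
      obtain ⟨z, hz⟩ := (int_iff _).1 (hSD.int i i)
      rw [← hz]
      exact 𝔓.valuation_le_one z
    have h2 : 𝔓.valuation L (e i * s / α) ^ 2 ≤ 1 := by
      rw [← map_pow]
      have h3 : (e i * s / α) ^ 2 = (e i * e i / α) * (s ^ 2 / α) := by
        field_simp
      rw [h3, map_mul, hvs', mul_one]
      exact h1
    exact (pow_le_one_iff two_ne_zero).1 h2
  choose n d hnd using fun i => 𝔓.exists_primeCompl_mul_eq_of_integer (e i * s / α) (hint i)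
  have hd : ∀ i, ((d i : 𝓞 L) : 𝓞 L) ∉ 𝔓.asIdeal := fun i => (d i).2
  obtain ⟨t, ht⟩ : ∃ t : 𝓞 L, t = ∏ i, (d i : 𝓞 L) := ⟨_, rfl⟩
  have htn : t ∉ 𝔓.asIdeal := by
    rw [ht]
    intro hmem
    obtain ⟨i, -, hi⟩ := (Ideal.IsPrime.prod_mem_iff (hp := 𝔓.isPrime)).1 hmem
    exact hd i hi
  have hy : InI g e α (s * algebraMap (𝓞 L) L t) := by
    intro i
    have h1 : e i * (s * algebraMap (𝓞 L) L t) / α =
        algebraMap (𝓞 L) L (n i * ∏ j ∈ Finset.univ.erase i, (d j : 𝓞 L)) := by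
      rw [ht, ← Finset.mul_prod_erase _ _ (Finset.mem_univ i), map_mul, map_mul, ← hnd i]
      ring
    rw [h1]
    exact (int_iff _).2 ⟨_, rfl⟩
  obtain ⟨u, hu⟩ := (int_iff _).1 (hy.prod hSD hy)
  refine ⟨_, t, u, hy, htn, hu, ?_⟩
  apply (𝔓.valuation_lt_one_iff_mem (K := L) _).1
  change 𝔓.valuation L (algebraMap (𝓞 L) L (u - t ^ 2)) < 1
  have h1 : algebraMap (𝓞 L) L (u - t ^ 2) = - ((algebraMap (𝓞 L) L t) ^ 2 * ((α - s ^ 2) / α)) := by
    rw [map_sub, map_pow, hu]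
    field_simp
    ring
  rw [h1, Valuation.map_neg, map_mul, map_pow, map_div₀]
  have h2 : 𝔓.valuation L (α - s ^ 2) / 𝔓.valuation L α < 1 :=
    (div_lt_one₀ (zero_lt_iff.2 hvα)).2 hs
  calc _ ≤ 1 * (𝔓.valuation L (α - s ^ 2) / 𝔓.valuation L α) :=
        mul_le_mul_left (pow_le_one₀ zero_le (𝔓.valuation_le_one t)) _
    _ < 1 := by rw [one_mul]; exact h2

/-- an element of the lattice which is good at `𝔓` and small at `𝔓'` -/
theorem stepB {e : Fin (2 * g + 1) → L} {α : L} (hα : α ≠ 0) (hSD : SDn g e α)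
    {𝔓 𝔓' : HeightOneSpectrum (𝓞 L)} (hs : Sq1 𝔓 α) (hne : ∃ p ∈ 𝔓'.asIdeal, p ∉ 𝔓.asIdeal) :
    ∃ (x : L) (u : 𝓞 L), InI g e α x ∧ algebraMap (𝓞 L) L u = x * x / α ∧
      u - 1 ∈ 𝔓.asIdeal ∧ u ∈ 𝔓'.asIdeal := by
  obtain ⟨y, t, u, hy, ht, hu, hut⟩ := stepA hα hSD hs
  obtain ⟨p, hp', hp⟩ := hne
  have hmax : 𝔓.asIdeal.IsMaximal := 𝔓.isMaximal
  have htp : t * p ∉ 𝔓.asIdeal := fun h => (𝔓.isPrime.mem_or_mem h).elim ht hp
  obtain ⟨c, i, hi, hci⟩ := hmax.exists_inv htp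
  obtain ⟨ε, hε⟩ : ∃ ε, ε = c * p := ⟨_, rfl⟩
  have hεt : ε * t - 1 ∈ 𝔓.asIdeal := by
    have : ε * t - 1 = -i := by rw [hε, ← hci]; ring
    rw [this]
    exact 𝔓.asIdeal.neg_mem hi
  refine ⟨algebraMap (𝓞 L) L ε * y, ε ^ 2 * u, hy.mul ((int_iff _).2 ⟨_, rfl⟩), ?_, ?_, ?_⟩
  · rw [map_mul, map_pow, hu]
    ring
  · have h1 : ε ^ 2 * u - 1 = ε ^ 2 * (u - t ^ 2) + (ε * t + 1) * (ε * t - 1) := by ring
    rw [h1]
    exact 𝔓.asIdeal.add_mem (𝔓.asIdeal.mul_mem_left _ hut) (𝔓.asIdeal.mul_mem_left _ hεt)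
  · rw [hε, mul_pow, mul_assoc]
    refine 𝔓'.asIdeal.mul_mem_left _ (𝔓'.asIdeal.mul_mem_right _ ?_)
    exact Ideal.pow_mem_of_mem _ hp' 2 two_pos

/-- the forms `(x, A (A⁻¹ B) ^ m x)` -/
theorem form_top (h : IsGen g f θ) {α : L} {e : Fin (2 * g + 1) → L} {A B : Mt g ℤ}
    (hSD : SDn g e α) (hL : Lat h α e A B) (m : ℕ) (ξ : Fin (2 * g + 1) → ℤ) :
    ((form A B m ξ : ℤ) : ℚ) = h.top (θ ^ m * (∑ i, (ξ i : L) * e i) ^ 2 / α) := by
  have hu : IsUnit A.det := Int.isUnit_iff.2 hL.det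
  have hT : ∀ j, ∃ c : Fin (2 * g + 1) → ℤ, θ * e j = ∑ i, (c i : L) * e i := fun j =>
    hSD.dual _ fun i => by
      have e1 : e i * (θ * e j) / α = θ * (e i * e j / α) := by ring
      rw [e1]
      exact (theta_int h).mul (hSD.int i j)
  choose c hc using hT
  set T : Mt g ℤ := Matrix.of fun i j => c j i with hTd
  have hAT : A * T = B := by
    ext i j
    have h1 : (((A * T) i j : ℤ) : ℚ) = B i j := by
      rw [hL.gB, Matrix.mul_apply, Int.cast_sum]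
      have e1 : θ * (e i * e j) / α = ∑ l, ((c j l : ℤ) : ℚ) • (e i * e l / α) := by
        have e2 : θ * (e i * e j) / α = e i * (θ * e j) / α := by ring
        rw [e2, hc, Finset.mul_sum, Finset.sum_div]
        refine Finset.sum_congr rfl fun l _ => ?_
        rw [← int_smul]
        ring
      rw [e1, map_sum]
      refine Finset.sum_congr rfl fun l _ => ?_
      rw [map_smul, smul_eq_mul, ← hL.gA, hTd, Matrix.of_apply]
      push_cast
      ring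
    exact_mod_cast h1
  have hTB : A⁻¹ * B = T := by
    rw [← hAT, ← Matrix.mul_assoc, Matrix.nonsing_inv_mul _ hu, Matrix.one_mul]
  have hpow : ∀ m : ℕ, ∀ j, θ ^ m * e j = ∑ l, (((T ^ m) l j : ℤ) : L) * e l := by
    intro m
    induction m with
    | zero =>
      intro j
      rw [pow_zero, one_mul, pow_zero, Finset.sum_eq_single j]
      · rw [Matrix.one_apply_eq]; simp
      · intro b _ hb
        rw [Matrix.one_apply_ne hb]; simp
      · intro hh; exact absurd (Finset.mem_univ _) hh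
    | succ m ih =>
      intro j
      have e1 : θ ^ (m + 1) * e j = θ * (θ ^ m * e j) := by ring
      rw [e1, ih, Finset.mul_sum]
      have e2 : ∀ l, θ * ((((T ^ m) l j : ℤ) : L) * e l) =
          ∑ i, (((T i l * (T ^ m) l j : ℤ)) : L) * e i := by
        intro l
        have e3 : θ * ((((T ^ m) l j : ℤ) : L) * e l) = (((T ^ m) l j : ℤ) : L) * (θ * e l) := by
          ring
        rw [e3, hc, Finset.mul_sum]
        refine Finset.sum_congr rfl fun i _ => ?_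
        rw [hTd, Matrix.of_apply]
        push_cast
        ring
      rw [Finset.sum_congr rfl fun l _ => e2 l, Finset.sum_comm]
      refine Finset.sum_congr rfl fun i _ => ?_
      rw [pow_succ' T m, Matrix.mul_apply, Int.cast_sum, Finset.sum_mul]
  have hent : ∀ i j, (((A * T ^ m) i j : ℤ) : ℚ) = h.top (θ ^ m * e j * e i / α) := by
    intro i j
    rw [hpow m j, Matrix.mul_apply, Int.cast_sum, Finset.sum_mul, Finset.sum_div, map_sum]
    refine Finset.sum_congr rfl fun l _ => ?_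
    have e1 : (((T ^ m) l j : ℤ) : L) * e l * e i / α =
        (((T ^ m) l j : ℤ) : ℚ) • (e i * e l / α) := by
      rw [← int_smul]
      ring
    rw [e1, map_smul, smul_eq_mul, ← hL.gA]
    push_cast
    ring
  unfold form
  rw [hTB]
  have e2 : θ ^ m * (∑ i, (ξ i : L) * e i) ^ 2 / α =
      ∑ i, ((ξ i : ℤ) : ℚ) • ∑ j, ((ξ j : ℤ) : ℚ) • (θ ^ m * e j * e i / α) := by
    rw [sq, Finset.sum_mul, Finset.mul_sum, Finset.sum_div]
    refine Finset.sum_congr rfl fun i _ => ?_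
    rw [Finset.mul_sum, Finset.mul_sum, Finset.sum_div, ← int_smul, Finset.mul_sum]
    refine Finset.sum_congr rfl fun j _ => ?_
    rw [← int_smul]
    ring
  rw [e2, map_sum]
  unfold dotProduct
  rw [Int.cast_sum]
  refine Finset.sum_congr rfl fun i _ => ?_
  rw [map_smul, smul_eq_mul, map_sum, Int.cast_mul]
  congr 1
  unfold Matrix.mulVec dotProduct
  rw [Int.cast_sum]
  refine Finset.sum_congr rfl fun j _ => ?_
  rw [map_smul, smul_eq_mul, ← hent, Int.cast_mul, mul_comm]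

end main

/-- **TV.** -/
theorem tv (hI : S_INT) : S_TV := by
  intro g W L _ _ f θ S h hg hG hsq hS α e A B hα hSD hLat q hqS hcg hSq
  obtain ⟨hq, -, -, -, hm, hdeg, -, hirr⟩ := hS q hqS
  haveI : Fact q.Prime := ⟨hq⟩
  have hbd : (rd q (h q)).natDegree = 2 * g := by rw [hm.natDegree_map, hdeg]
  have hbX : ¬ rd q (h q) ∣ X := fun hd => by
    have h8 : (rd q (h q)).natDegree ≤ (X : (ZMod q)[X]).natDegree :=
      natDegree_le_of_dvd hd X_ne_zero
    rw [hbd, natDegree_X] at h8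
    omega
  obtain ⟨t, ht⟩ := theta_ex hG
  have hfb : rd q f = X * rd q (h q) := by
    rw [map_eq_of_cg hcg, rd, Polynomial.map_mul, Polynomial.map_X]
  obtain ⟨𝔓, ov1, hk1⟩ := ex_prime hI hG hsq ht q X irreducible_X
    (by rw [hfb]; exact Dvd.intro _ rfl)
  obtain ⟨𝔮, ov2, hk2⟩ := ex_prime hI hG hsq ht q (rd q (h q)) hirr
    (by rw [hfb]; exact ⟨X, X_mul⟩)
  have hrX : rd q (X : ℤ[X]) = X := by rw [rd, Polynomial.map_X]
  have ht1 : t ∈ 𝔓.asIdeal := by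
    have := (hk1 X).2 (by rw [hrX])
    rwa [ev_X] at this
  have ht2 : t ∉ 𝔮.asIdeal := by
    intro hmem
    apply hbX
    have := (hk2 X).1 (by rwa [ev_X])
    rwa [hrX] at this
  have hh2 : ev t (h q) ∈ 𝔮.asIdeal := (hk2 _).2 dvd_rfl
  have hh1 : ev t (h q) ∉ 𝔓.asIdeal := by
    intro hmem
    have hass := irreducible_X.associated_of_dvd hirr ((hk1 _).1 hmem)
    exact hbX hass.symm.dvd
  obtain ⟨x₁, g₁, hx₁, hg₁, hg₁P, hg₁q⟩ := stepB hα hSD (hSq 𝔓 ov1) ⟨_, hh2, hh1⟩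
  obtain ⟨x₂, g₂, hx₂, hg₂, hg₂q, hg₂P⟩ := stepB hα hSD (hSq 𝔮 ov2) ⟨_, ht1, ht2⟩
  obtain ⟨hh, hhh⟩ := (int_iff _).1 (hx₁.prod hSD hx₂)
  have hsqh : hh ^ 2 = g₁ * g₂ := by
    apply IsFractionRing.injective (𝓞 L) L
    rw [map_pow, map_mul, hhh, hg₁, hg₂]
    field_simp
  have hhP : hh ∈ 𝔓.asIdeal := by
    apply 𝔓.isPrime.mem_of_pow_mem 2
    rw [hsqh]
    exact 𝔓.asIdeal.mul_mem_left _ hg₂P
  have hhq : hh ∈ 𝔮.asIdeal := by
    apply 𝔮.isPrime.mem_of_pow_mem 2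
    rw [hsqh]
    exact 𝔮.asIdeal.mul_mem_right _ hg₁q
  obtain ⟨ξ, hξ⟩ := hSD.dual _ (hx₁.add hx₂)
  obtain ⟨z, hz⟩ : ∃ z : 𝓞 L, z = g₁ + 2 * hh + g₂ := ⟨_, rfl⟩
  have hzL : algebraMap (𝓞 L) L z = (x₁ + x₂) ^ 2 / α := by
    rw [hz]
    simp only [map_add, map_mul, hg₁, hg₂, hhh, map_ofNat]
    ring
  obtain ⟨p, hp1, hp2⟩ := ex_poly hI hG hsq ht z
  have hzP : z - 1 ∈ 𝔓.asIdeal := by
    have e1 : z - 1 = (g₁ - 1) + 2 * hh + g₂ := by rw [hz]; ring
    rw [e1]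
    exact 𝔓.asIdeal.add_mem (𝔓.asIdeal.add_mem hg₁P (𝔓.asIdeal.mul_mem_left _ hhP)) hg₂P
  have hzq : z - 1 ∈ 𝔮.asIdeal := by
    have e1 : z - 1 = g₁ + 2 * hh + (g₂ - 1) := by rw [hz]; ring
    rw [e1]
    exact 𝔮.asIdeal.add_mem (𝔮.asIdeal.add_mem hg₁q (𝔮.asIdeal.mul_mem_left _ hhq)) hg₂q
  have hev1 : ev t (p - 1) = z - 1 := by rw [map_sub, map_one, hp2]
  rw [← hev1, hk1] at hzP
  rw [← hev1, hk2] at hzq
  have hzero : rd q (p - 1) = 0 := by
    have hcop : IsCoprime (X : (ZMod q)[X]) (rd q (h q)) := by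
      rw [irreducible_X.coprime_iff_not_dvd]
      intro hd
      exact hbX (irreducible_X.associated_of_dvd hirr hd).symm.dvd
    have hdvd := hcop.mul_dvd hzP hzq
    by_contra hne
    have hdeg2 := degree_le_of_dvd hdvd hne
    have h1 : (X * rd q (h q) : (ZMod q)[X]).degree = ((2 * g + 1 : ℕ) : WithBot ℕ) := by
      rw [degree_mul, degree_X, degree_eq_natDegree hirr.ne_zero, hbd]
      norm_cast
      ring
    rw [h1] at hdeg2
    have h2 : (rd q (p - 1)).degree < ((2 * g + 1 : ℕ) : WithBot ℕ) := by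
      refine (degree_map_le).trans_lt ?_
      refine (degree_sub_le _ _).trans_lt (max_lt hp1 ?_)
      refine degree_one_le.trans_lt ?_
      exact_mod_cast Nat.succ_pos _
    exact absurd hdeg2 (not_le.2 h2)
  obtain ⟨p', hp'⟩ := map_rd_eq_zero hzero
  rw [hp', map_mul, ev_C] at hev1
  refine ⟨ξ, 1, fun hd => ?_, fun m hm' => ?_⟩
  · have h1 : (q : ℤ) ∣ ((1 : ℕ) : ℤ) := by exact_mod_cast hd
    exact hq.one_lt.ne' (Nat.dvd_one.1 (Int.natCast_dvd_natCast.1 h1))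
  have hint : ∀ y : 𝓞 L, ∃ n : ℤ, (n : ℚ) = hG.top (algebraMap (𝓞 L) L y) := fun y =>
    top_int hG (hI g L f θ hG hsq) ((int_iff _).2 ⟨y, rfl⟩)
  obtain ⟨n, hn⟩ := hint (t ^ m * ev t p')
  refine ⟨n, ?_⟩
  have h3 := form_top hG hSD hLat m ξ
  have h4 : θ ^ m * (∑ i, (ξ i : L) * e i) ^ 2 / α =
      θ ^ m + (q : ℚ) • algebraMap (𝓞 L) L (t ^ m * ev t p') := by
    rw [← hξ, mul_div_assoc, ← hzL]
    have h5 : z = 1 + ((q : ℤ) : 𝓞 L) * ev t p' := by rw [hev1]; ring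
    rw [h5, map_add, map_mul, map_mul, map_pow, ht, map_one, Algebra.smul_def]
    simp only [map_intCast, map_natCast, Int.cast_natCast]
    ring
  rw [h4, map_add, map_smul, smul_eq_mul, ← hn, top_pow hG m hm'] at h3
  have h6 : ((form A B m ξ - (if m = 2 * g then 1 ^ 2 else 0) : ℤ) : ℚ) = ((q * n : ℤ) : ℚ) := by
    push_cast
    rw [h3]
    split_ifs <;> ring
  exact_mod_cast h6

end Pool.Agent.N776.PQ
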